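import Pool.Agent.Lib.MP_ddd95a_nt.Index
import Pool.Agent.Lib.MP_ddd95a_nt.Symm

set_option autoImplicit false

/-!
# Equivalence of lattices
-/

namespace Pool.Agent.Lib.MP_ddd95a_nt.Iso

open Pool.Agent.Lib.MP_ddd95a_nt

open scoped BigOperators

/-- `W` is obtained from `V` by a unimodular change of the basis, a permutation and a scaling of
the coordinates. -/
def Eqv (V W : Matrix (Fin 3) (Fin 3) ℝ) : Prop :=
  ∃ (M : Matrix (Fin 3) (Fin 3) ℤ) (π : Equiv.Perm (Fin 3)) (s : Fin 3 → ℝ),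
    IsUnit M.det ∧ (∀ j, s j ≠ 0) ∧ ∀ i j, W i j = s j * crd V (M i) (π j)

lemma crd_one (V : Matrix (Fin 3) (Fin 3) ℝ) (i j : Fin 3) :
    crd V ((1 : Matrix (Fin 3) (Fin 3) ℤ) i) j = V i j := by
  unfold crd
  simp [Matrix.one_apply]

lemma Eqv.refl (V : Matrix (Fin 3) (Fin 3) ℝ) : Eqv V V :=
  ⟨1, 1, fun _ => 1, by simp, fun _ => one_ne_zero, fun i j => by
    rw [crd_one, one_mul]; rfl⟩

/-- coordinates with respect to the new basis -/
lemma crd_eqv {V W : Matrix (Fin 3) (Fin 3) ℝ} {M : Matrix (Fin 3) (Fin 3) ℤ}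
    {π : Equiv.Perm (Fin 3)} {s : Fin 3 → ℝ} (h : ∀ i j, W i j = s j * crd V (M i) (π j))
    (n : Fin 3 → ℤ) (j : Fin 3) :
    crd W n j = s j * crd V (Matrix.vecMul n M) (π j) := by
  rw [crd_vecMul]
  conv_lhs => unfold crd
  rw [Finset.mul_sum]
  refine Finset.sum_congr rfl fun i _ => ?_
  rw [h]
  ring

lemma Eqv.trans {V W X : Matrix (Fin 3) (Fin 3) ℝ} (h1 : Eqv V W) (h2 : Eqv W X) : Eqv V X := by
  obtain ⟨M, π, s, hM, hs, h⟩ := h1
  obtain ⟨N, ρ, r, hN, hr, h'⟩ := h2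
  refine ⟨N * M, ρ.trans π, fun j => r j * s (ρ j), ?_, fun j => mul_ne_zero (hr j) (hs _), ?_⟩
  · rw [Matrix.det_mul]
    exact hN.mul hM
  · intro i j
    rw [h', crd_eqv h]
    have e : (N * M) i = Matrix.vecMul (N i) M := by
      funext k
      simp [Matrix.mul_apply, Matrix.vecMul, dotProduct]
    rw [e, Equiv.trans_apply]
    ring

lemma Eqv.symm {V W : Matrix (Fin 3) (Fin 3) ℝ} (h1 : Eqv V W) : Eqv W V := by
  obtain ⟨M, π, s, hM, hs, h⟩ := h1
  refine ⟨M⁻¹, π.symm, fun j => (s (π.symm j))⁻¹, ?_, fun j => inv_ne_zero (hs _), ?_⟩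
  · have := congrArg Matrix.det (Matrix.nonsing_inv_mul M hM)
    rw [Matrix.det_mul, Matrix.det_one] at this
    exact IsUnit.of_mul_eq_one _ this
  · intro i j
    rw [crd_eqv h]
    have e : Matrix.vecMul (M⁻¹ i) M = (1 : Matrix (Fin 3) (Fin 3) ℤ) i := by
      funext k
      have := congrFun (congrFun (Matrix.nonsing_inv_mul M hM) i) k
      rw [← this]
      simp [Matrix.mul_apply, Matrix.vecMul, dotProduct]
    rw [e, crd_one, Equiv.apply_symm_apply, ← mul_assoc, inv_mul_cancel₀ (hs _), one_mul]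

lemma abs_isUnit {m : ℤ} (h : IsUnit m) : |(m : ℝ)| = 1 := by
  rcases Int.isUnit_iff.1 h with h | h <;> rw [h] <;> simp

/-- The determinant of an equivalent lattice. -/
lemma abs_det_eqv {V W : Matrix (Fin 3) (Fin 3) ℝ} {M : Matrix (Fin 3) (Fin 3) ℤ}
    {π : Equiv.Perm (Fin 3)} {s : Fin 3 → ℝ} (hM : IsUnit M.det)
    (h : ∀ i j, W i j = s j * crd V (M i) (π j)) : |W.det| = (∏ j, |s j|) * |V.det| := by
  have e : W = Matrix.of fun i j => (fun _ => (1 : ℝ)) i * (s j *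
      crd (V.submatrix id π) (M i) j) := by
    ext i j
    rw [h, Matrix.of_apply, one_mul]
    rfl
  have hp : (V.submatrix id π).det = Equiv.Perm.sign π * V.det := Matrix.det_permute' π V
  rw [e, idx_det_W (V.submatrix id π) M (fun _ => 1) s, hp]
  rw [abs_mul, abs_mul, abs_mul, abs_mul, abs_isUnit hM]
  have h1 : |((Equiv.Perm.sign π : ℤ) : ℝ)| = 1 := abs_isUnit (Equiv.Perm.sign π).isUnit
  rw [h1, Finset.prod_const_one, abs_one, one_mul, one_mul, one_mul, Finset.abs_prod]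

lemma Eqv.good {κ : ℝ} {V W : Matrix (Fin 3) (Fin 3) ℝ} (h1 : Eqv V W) (hW : Good κ W) :
    Good κ V := by
  obtain ⟨M, π, s, hM, hs, h⟩ := h1
  obtain ⟨T, hT, hE, hp⟩ := hW
  have hs' : ∀ j, 0 < |s j| := fun j => abs_pos.2 (hs j)
  refine ⟨fun j => T (π.symm j) / |s (π.symm j)|, fun j => div_pos (hT _) (hs' _), ?_, ?_⟩
  · intro n hn
    have hm : Matrix.vecMul n M⁻¹ ≠ 0 := by
      intro h0
      apply hn
      have : n = Matrix.vecMul (Matrix.vecMul n M⁻¹) M := by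
        rw [Matrix.vecMul_vecMul, Matrix.nonsing_inv_mul M hM, Matrix.vecMul_one]
      rw [this, h0, Matrix.zero_vecMul]
    obtain ⟨j, hj⟩ := hE _ hm
    refine ⟨π j, ?_⟩
    rw [crd_eqv h, Matrix.vecMul_vecMul, Matrix.nonsing_inv_mul M hM, Matrix.vecMul_one,
      abs_mul] at hj
    simp only [Equiv.symm_apply_apply]
    rw [div_le_iff₀ (hs' j)]
    linarith
  · have e : ∏ j, T (π.symm j) / |s (π.symm j)| = (∏ j, T j) / ∏ j, |s j| := by
      rw [← Finset.prod_div_distrib]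
      exact Equiv.prod_comp π.symm (fun j => T j / |s j|)
    rw [e, le_div_iff₀ (Finset.prod_pos fun j _ => hs' j)]
    rw [abs_det_eqv hM h] at hp
    linarith

lemma Eqv.det_ne {V W : Matrix (Fin 3) (Fin 3) ℝ} (h1 : Eqv V W) (hV : V.det ≠ 0) :
    W.det ≠ 0 := by
  obtain ⟨M, π, s, hM, hs, h⟩ := h1
  have e := abs_det_eqv hM h
  intro h0
  rw [h0, abs_zero] at e
  have hs' : ∀ j, 0 < |s j| := fun j => abs_pos.2 (hs j)
  have := mul_pos (Finset.prod_pos fun j (_ : j ∈ Finset.univ) => hs' j) (abs_pos.2 hV)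
  linarith

/-- Every lattice is good for `kapp` or equivalent to a normalised one. -/
theorem good_or_nrm {κ : ℝ} (hκ : κ ≤ 3 / 4)
    (htouch : ∀ V : Matrix (Fin 3) (Fin 3) ℝ, V.det ≠ 0 →
      ∃ (T : Fin 3 → ℝ) (u : Matrix (Fin 3) (Fin 3) ℤ), (∀ j, 0 < T j) ∧ EmptyBox V T ∧
        (∀ i, |crd V (u i) i| = T i) ∧ (∀ i j, |crd V (u i) j| ≤ T j) ∧ u.det ≠ 0)
    (V : Matrix (Fin 3) (Fin 3) ℝ) (hV : V.det ≠ 0) :
    Good κ V ∨ ∃ W, Nrm W ∧ Eqv V W := by
  classical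
  obtain ⟨T, u0, hT, hE, ht0, hb0, hu0⟩ := htouch V hV
  have hex : ∃ m : ℕ, ∃ u : Matrix (Fin 3) (Fin 3) ℤ, (∀ i, |crd V (u i) i| = T i) ∧
      (∀ i j, |crd V (u i) j| ≤ T j) ∧ u.det ≠ 0 ∧ u.det.natAbs = m :=
    ⟨_, u0, ht0, hb0, hu0, rfl⟩
  obtain ⟨u, ht, hb, hu, hm⟩ := Nat.find_spec hex
  have hmin : ∀ u' : Matrix (Fin 3) (Fin 3) ℤ, (∀ i, |crd V (u' i) i| = T i) →
      (∀ i j, |crd V (u' i) j| ≤ T j) → u'.det ≠ 0 → u.det.natAbs ≤ u'.det.natAbs := by
    intro u' h1 h2 h3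
    rw [hm]
    exact Nat.find_min' hex ⟨u', h1, h2, h3, rfl⟩
  clear hm
  -- signs
  have hsg : ∀ i, ∃ σ : ℤ, (σ = 1 ∨ σ = -1) ∧ (σ : ℝ) * crd V (u i) i = T i := by
    intro i
    rcases abs_eq (hT i).le |>.1 (ht i) with h1 | h1
    · exact ⟨1, Or.inl rfl, by rw [h1]; simp⟩
    · exact ⟨-1, Or.inr rfl, by rw [h1]; simp⟩
  choose σ hσ hσT using hsg
  have hσ2 : ∀ i, σ i * σ i = 1 := by
    intro i
    rcases hσ i with h1 | h1 <;> rw [h1] <;> rfl
  have hσa : ∀ i, |(σ i : ℝ)| = 1 := by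
    intro i
    rcases hσ i with h1 | h1 <;> rw [h1] <;> simp
  set W : Matrix (Fin 3) (Fin 3) ℝ := Matrix.of fun i j => (σ i : ℝ) * ((T j)⁻¹ * crd V (u i) j)
    with hWdef
  have hWd : ∀ i, W i i = 1 := by
    intro i
    have h1 := hσT i
    have h2 := (hT i).ne'
    rw [hWdef, Matrix.of_apply]
    calc (σ i : ℝ) * ((T i)⁻¹ * crd V (u i) i) = (T i)⁻¹ * ((σ i : ℝ) * crd V (u i) i) := by ring
      _ = 1 := by rw [h1, inv_mul_cancel₀ h2]
  have hW1 : ∀ i j, |W i j| ≤ 1 := by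
    intro i j
    rw [hWdef, Matrix.of_apply, abs_mul, hσa, one_mul, abs_mul, abs_inv, abs_of_pos (hT j)]
    rw [inv_mul_le_iff₀ (hT j), mul_one]
    exact hb i j
  have hPpos : 0 < ∏ j, T j := Finset.prod_pos fun j _ => hT j
  have hWdet : |W.det| * ∏ j, T j = (u.det.natAbs : ℝ) * |V.det| := by
    have e := idx_det_W V u (fun i => (σ i : ℝ)) (fun j => (T j)⁻¹)
    rw [hWdef, e, abs_mul, abs_mul, abs_mul]
    have e1 : |∏ i, (σ i : ℝ)| = 1 := by
      rw [Finset.abs_prod]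
      simp [hσa]
    have e2 : |∏ j, (T j)⁻¹| = (∏ j, T j)⁻¹ := by
      rw [Finset.prod_inv_distrib, abs_inv, abs_of_pos hPpos]
    have e3 : |(u.det : ℝ)| = (u.det.natAbs : ℝ) := by
      rw [Nat.cast_natAbs, Int.cast_abs]
    rw [e1, e2, e3, one_mul]
    field_simp
  have hWne : W.det ≠ 0 := by
    intro h0
    rw [h0, abs_zero, zero_mul] at hWdet
    have : 0 < (u.det.natAbs : ℝ) * |V.det| := by
      apply mul_pos
      · have : 0 < u.det.natAbs := Int.natAbs_pos.2 hu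
        exact_mod_cast this
      · exact abs_pos.2 hV
    linarith
  -- coordinates
  have hcrd : ∀ (n : Fin 3 → ℤ) (j : Fin 3),
      crd V (Matrix.vecMul (fun i => σ i * n i) u) j = T j * crd W n j := by
    intro n j
    rw [crd_vecMul]
    unfold crd
    rw [Finset.mul_sum]
    refine Finset.sum_congr rfl fun i _ => ?_
    rw [hWdef, Matrix.of_apply]
    have := (hT j).ne'
    push_cast
    unfold crd
    field_simp
  have hWE : EmptyBox W (fun _ => 1) := by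
    intro n hn
    have hne : Matrix.vecMul (fun i => σ i * n i) u ≠ 0 := by
      intro h0
      have h1 := Matrix.eq_zero_of_vecMul_eq_zero hu h0
      apply hn
      funext i
      have h2 := congrFun h1 i
      simp only [Pi.zero_apply] at h2 ⊢
      calc n i = (σ i * σ i) * n i := by rw [hσ2, one_mul]
        _ = σ i * (σ i * n i) := by ring
        _ = 0 := by rw [h2, mul_zero]
    obtain ⟨j, hj⟩ := hE _ hne
    refine ⟨j, ?_⟩
    rw [hcrd, abs_mul, abs_of_pos (hT j)] at hj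
    have := hT j
    by_contra hcon
    push Not at hcon
    nlinarith
  have hupos : 0 < u.det.natAbs := Int.natAbs_pos.2 hu
  have hVpos : 0 < |V.det| := abs_pos.2 hV
  rcases Nat.lt_or_ge 2 u.det.natAbs with hm | hm
  · -- index at least three
    left
    refine ⟨T, hT, hE, ?_⟩
    have h4 := idx_det_le hWd hW1
    have h3 : (3 : ℝ) ≤ (u.det.natAbs : ℝ) := by exact_mod_cast hm
    nlinarith
  · rcases Nat.lt_or_ge u.det.natAbs 2 with hm1 | hm2
    · -- unimodular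
      have hone : u.det.natAbs = 1 := by omega
      right
      refine ⟨W, ⟨hWd, hW1, hWE, hWne⟩, Matrix.of fun i j => σ i * u i j, 1,
        fun j => (T j)⁻¹, ?_, fun j => inv_ne_zero (hT j).ne', fun i j => ?_⟩
      · have e := Matrix.det_mul_column σ u
        rw [e]
        refine IsUnit.mul ?_ (Int.isUnit_iff_natAbs_eq.2 hone)
        rw [Int.isUnit_iff]
        rcases hσ 0 with h0 | h0 <;> rcases hσ 1 with h1 | h1 <;> rcases hσ 2 with h2 | h2 <;>
          simp [Fin.prod_univ_three, h0, h1, h2]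
      · rw [hWdef, Matrix.of_apply]
        unfold crd
        simp only [Matrix.of_apply, Equiv.Perm.coe_one, id_eq, Fin.sum_univ_three]
        push_cast
        ring
    · exact (idx_two hT hE ht hb (by omega) (by
        intro u' h1 h2 h3
        have := hmin u' h1 h2 h3
        omega)).elim



open Symm in
/-- A signed permutation gives an equivalent lattice. -/
lemma eqv_tw (V : Matrix (Fin 3) (Fin 3) ℝ) (π : Equiv.Perm (Fin 3)) {ε : Fin 3 → ℤ}
    (hε : ∀ i, ε i = 1 ∨ ε i = -1) : Eqv V (tw V π ε) := by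
  refine ⟨Matrix.of fun i j => ε i * (1 : Matrix (Fin 3) (Fin 3) ℤ).submatrix π id i j, π,
    fun j => (ε j : ℝ), ?_, fun j => ?_, fun i j => ?_⟩
  · rw [Matrix.det_mul_column]
    refine IsUnit.mul ?_ ?_
    · rw [Int.isUnit_iff]
      rcases hε 0 with h0 | h0 <;> rcases hε 1 with h1 | h1 <;> rcases hε 2 with h2 | h2 <;>
        simp [Fin.prod_univ_three, h0, h1, h2]
    · rw [Matrix.det_permute, Matrix.det_one, mul_one]
      exact (Equiv.Perm.sign π).isUnit
  · show ((ε j : ℤ) : ℝ) ≠ 0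
    rcases hε j with h | h <;> rw [h] <;> simp
  · rw [tw_apply]
    have e : crd V ((Matrix.of fun i j => ε i *
        (1 : Matrix (Fin 3) (Fin 3) ℤ).submatrix π id i j) i) (π j) = ε i * V (π i) (π j) := by
      unfold crd
      have : ∀ k, (((Matrix.of fun i j => ε i *
          (1 : Matrix (Fin 3) (Fin 3) ℤ).submatrix π id i j) i k : ℤ) : ℝ) * V k (π j) =
          if π i = k then (ε i : ℝ) * V k (π j) else 0 := by
        intro k
        simp only [Matrix.of_apply, Matrix.submatrix_apply, id_eq, Matrix.one_apply]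
        split_ifs <;> simp
      rw [Finset.sum_congr rfl fun k _ => this k, Finset.sum_ite_eq]
      simp
    rw [e]
    ring

open Symm in
/-- Symmetry reduction. -/
theorem exists_sorted : ∀ V : Matrix (Fin 3) (Fin 3) ℝ, Nrm V →
    ∃ W, Eqv V W ∧ Nrm W ∧ 0 ≤ W 0 1 ∧ 0 ≤ W 0 2 ∧ ∀ i j, i ≠ j → |W i j| ≤ W 0 2 := by
  intro V hV
  obtain ⟨⟨i, j⟩, hij, hmax⟩ := Finset.exists_max_image
    (Finset.univ.filter fun p : Fin 3 × Fin 3 => p.1 ≠ p.2) (fun p => |V p.1 p.2|)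
    ⟨(0, 1), by simp⟩
  simp only [Finset.mem_filter, Finset.mem_univ, true_and] at hij hmax
  obtain ⟨π, h0, h2⟩ := exists_perm i j hij
  let ε : Fin 3 → ℤ := ![1, if 0 ≤ V (π 0) (π 1) then 1 else -1, if 0 ≤ V (π 0) (π 2) then 1 else -1]
  have hε : ∀ i, ε i = 1 ∨ ε i = -1 := by
    intro i
    fin_cases i
    · left; rfl
    · show (if 0 ≤ V (π 0) (π 1) then (1 : ℤ) else -1) = 1 ∨
        (if 0 ≤ V (π 0) (π 1) then (1 : ℤ) else -1) = -1
      split_ifs
      · left; rfl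
      · right; rfl
    · show (if 0 ≤ V (π 0) (π 2) then (1 : ℤ) else -1) = 1 ∨
        (if 0 ≤ V (π 0) (π 2) then (1 : ℤ) else -1) = -1
      split_ifs
      · left; rfl
      · right; rfl
  have h01 : tw V π ε 0 1 = |V (π 0) (π 1)| := by
    rw [tw_apply]
    show ((1 : ℤ) : ℝ) * ((if 0 ≤ V (π 0) (π 1) then (1 : ℤ) else -1 : ℤ) : ℝ) * V (π 0) (π 1) = _
    split_ifs with hc
    · rw [abs_of_nonneg hc]; norm_num
    · rw [abs_of_neg (not_le.mp hc)]; norm_num
  have h02 : tw V π ε 0 2 = |V (π 0) (π 2)| := by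
    rw [tw_apply]
    show ((1 : ℤ) : ℝ) * ((if 0 ≤ V (π 0) (π 2) then (1 : ℤ) else -1 : ℤ) : ℝ) * V (π 0) (π 2) = _
    split_ifs with hc
    · rw [abs_of_nonneg hc]; norm_num
    · rw [abs_of_neg (not_le.mp hc)]; norm_num
  refine ⟨tw V π ε, eqv_tw V π hε, nrm_tw V π hε hV, ?_, ?_, ?_⟩
  · rw [h01]; exact abs_nonneg _
  · rw [h02]; exact abs_nonneg _
  · intro a b hab
    rw [h02, h0, h2, tw_apply, abs_mul, abs_mul, abs_sign hε, abs_sign hε, one_mul, one_mul]
    exact hmax (π a, π b) (by simpa using hab)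


end Pool.Agent.Lib.MP_ddd95a_nt.Iso
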